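import Pool.Agent.W844.RB.Defs

/-!
# Project RB: Reimer's butterfly theorem
-/

set_option autoImplicit false

open Finset

namespace Pool.Agent.W45.RB

open Pool.Agent.W844.RB

/-- the vectors of the plane, with polynomial entries -/
noncomputable def Fp (b c : Bool) : Polynomial ℝ :=
  if b = c then 1 - Polynomial.X else if b then -Polynomial.X else Polynomial.X

/-- the vectors of the plane -/
noncomputable def F (t : ℝ) (b c : Bool) : ℝ := if b = c then 1 - t else if b then -t else t

lemma eval_Fp (t : ℝ) (b c : Bool) : (Fp b c).eval t = F t b c := by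
  unfold Fp F
  split_ifs <;> simp

lemma F_orth (t : ℝ) {b b' : Bool} (h : b ≠ b') : ∑ c, F t b c * F t b' c = 0 := by
  rw [Fintype.sum_bool]
  cases b <;> cases b' <;> first | exact absurd rfl h | (simp [F]; ring)

section

variable {ι : Type} [Fintype ι]

open Classical in
/-- product vectors, with polynomial entries -/
noncomputable def Wp (K : Set ι) (x y : ι → Bool) : Polynomial ℝ :=
  ∏ i, if i ∈ K then (if y i = x i then 1 else 0) else Fp (x i) (y i)

open Classical in
/-- one factor of a product vector -/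
noncomputable def fa (t : ℝ) (K : Set ι) (x : ι → Bool) (i : ι) (c : Bool) : ℝ :=
  if i ∈ K then (if c = x i then 1 else 0) else F t (x i) c

/-- product vectors -/
noncomputable def W (t : ℝ) (K : Set ι) (x y : ι → Bool) : ℝ := ∏ i, fa t K x i (y i)

lemma eval_Wp (t : ℝ) (K : Set ι) (x y : ι → Bool) : (Wp K x y).eval t = W t K x y := by
  classical
  unfold Wp W fa
  rw [Polynomial.eval_prod]
  refine Finset.prod_congr rfl fun i _ => ?_
  split_ifs <;> simp [eval_Fp]

lemma inner [DecidableEq ι] (t : ℝ) (K L : Set ι) (x z : ι → Bool) :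
    ∑ u, W t K x u * W t L z u = ∏ i, ∑ c, fa t K x i c * fa t L z i c := by
  rw [Finset.prod_univ_sum, Fintype.piFinset_univ]
  refine Finset.sum_congr rfl fun u _ => ?_
  unfold W
  rw [Finset.prod_mul_distrib]

lemma inner_in [DecidableEq ι] (t : ℝ) (K L : Set ι) (x z : ι → Bool) (i : ι) (h1 : i ∈ K)
    (h2 : i ∈ L) (h : x i ≠ z i) : ∑ u, W t K x u * W t L z u = 0 := by
  rw [inner]
  refine Finset.prod_eq_zero (Finset.mem_univ i) (Finset.sum_eq_zero fun c _ => ?_)
  unfold fa
  rw [if_pos h1, if_pos h2]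
  by_cases h3 : c = x i
  · rw [if_neg (fun h4 : c = z i => h (h3.symm.trans h4)), mul_zero]
  · rw [if_neg h3, zero_mul]

lemma inner_out [DecidableEq ι] (t : ℝ) (K L : Set ι) (x z : ι → Bool) (i : ι) (h1 : i ∉ K)
    (h2 : i ∉ L) (h : x i ≠ z i) : ∑ u, W t K x u * W t L z u = 0 := by
  rw [inner]
  refine Finset.prod_eq_zero (Finset.mem_univ i) ?_
  unfold fa
  simp only [if_neg h1, if_neg h2]
  exact F_orth t h

lemma W_zero (K : Set ι) (x y : ι → Bool) : W 0 K x y = if x = y then 1 else 0 := by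
  classical
  unfold W
  by_cases h : x = y
  · rw [if_pos h]
    refine Finset.prod_eq_one fun i _ => ?_
    unfold fa F
    rw [h]
    simp
  · rw [if_neg h]
    obtain ⟨i, hi⟩ := Function.ne_iff.1 h
    refine Finset.prod_eq_zero (Finset.mem_univ i) ?_
    unfold fa F
    rw [if_neg hi, if_neg (Ne.symm hi)]
    simp

lemma W_univ (t : ℝ) (x y : ι → Bool) : W t Set.univ x y = if x = y then 1 else 0 := by
  classical
  unfold W
  by_cases h : x = y
  · rw [if_pos h]
    refine Finset.prod_eq_one fun i _ => ?_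
    unfold fa
    rw [h]
    simp
  · rw [if_neg h]
    obtain ⟨i, hi⟩ := Function.ne_iff.1 h
    refine Finset.prod_eq_zero (Finset.mem_univ i) ?_
    unfold fa
    rw [if_pos (Set.mem_univ i), if_neg (Ne.symm hi)]

lemma W_one_ne (x y : ι → Bool) (h : x ≠ y) : W 1 ∅ (fun i => !(x i)) y = 0 := by
  classical
  unfold W
  obtain ⟨i, hi⟩ := Function.ne_iff.1 h
  refine Finset.prod_eq_zero (Finset.mem_univ i) ?_
  unfold fa F
  rw [if_neg (Set.notMem_empty i)]
  have h1 : (!(x i)) = y i := by
    cases h2 : x i <;> cases h3 : y i <;> simp_all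
  rw [if_pos h1]
  norm_num

lemma W_one_eq (x : ι → Bool) : W 1 ∅ (fun i => !(x i)) x ≠ 0 := by
  classical
  unfold W
  refine Finset.prod_ne_zero_iff.2 fun i _ => ?_
  unfold fa F
  rw [if_neg (Set.notMem_empty i)]
  have h : ∀ b : Bool, (if (!b) = b then (1 : ℝ) - 1 else if (!b) then -1 else 1) ≠ 0 := by
    intro b
    cases b <;> simp
  exact h (x i)

end

theorem but : S_BUT := by
  intro ι _ _ X f
  classical
  obtain ⟨G, hG⟩ : ∃ G : Set (ι → Bool), G = {z : ι → Bool | (∃ x ∈ X, ∀ i ∈ f x, z i = x i) ∧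
    (∃ x ∈ X, ∀ i, i ∉ f x → z i = !(x i))} := ⟨_, rfl⟩
  rw [← hG]
  obtain ⟨R, hR⟩ : ∃ R : Set (ι → Bool), R = {z : ι → Bool | ∃ x ∈ X, ∀ i ∈ f x, z i = x i} :=
    ⟨_, rfl⟩
  obtain ⟨v, hv⟩ : ∃ v : ℝ → (ι → Bool) → (ι → Bool) → ℝ, v = fun t y u =>
    if y ∈ R then W t ∅ (fun i => !(y i)) u else W t Set.univ y u := ⟨_, rfl⟩
  obtain ⟨vp, hvp⟩ : ∃ vp : (ι → Bool) → (ι → Bool) → Polynomial ℝ, vp = fun y u =>
    if y ∈ R then Wp ∅ (fun i => !(y i)) u else Wp Set.univ y u := ⟨_, rfl⟩
  have hev : ∀ t y u, (vp y u).eval t = v t y u := by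
    intro t y u
    rw [hvp, hv]
    simp only
    split_ifs <;> rw [eval_Wp]
  -- orthogonality
  have horth : ∀ (t : ℝ) (x : ι → Bool), x ∈ X → ∀ y : ι → Bool, y ∉ G →
      ∑ u, W t (f x) x u * v t y u = 0 := by
    intro t x hx y hy
    rw [hv]
    simp only
    by_cases hyR : y ∈ R
    · simp only [if_pos hyR]
      have h1 : ¬ ∃ x ∈ X, ∀ i, i ∉ f x → y i = !(x i) := by
        intro h2
        apply hy
        rw [hG]
        rw [hR] at hyR
        exact ⟨hyR, h2⟩
      push Not at h1
      obtain ⟨i, hi, hi2⟩ := h1 x hx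
      refine inner_out t (f x) ∅ x _ i hi (Set.notMem_empty i) ?_
      intro h3
      apply hi2
      simp [h3]
    · simp only [if_neg hyR]
      have h1 : ¬ ∀ i ∈ f x, y i = x i := by
        intro h2
        apply hyR
        rw [hR]
        exact ⟨x, hx, h2⟩
      push Not at h1
      obtain ⟨i, hi, hi2⟩ := h1
      exact inner_in t (f x) Set.univ x y i hi (Set.mem_univ i) (Ne.symm hi2)
  -- the two determinants
  obtain ⟨B, hB⟩ : ∃ B : Matrix X X (Polynomial ℝ), B = fun x y => Wp (f x.1) x.1 y.1 := ⟨_, rfl⟩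
  obtain ⟨A, hA⟩ : ∃ A : Matrix (Gᶜ : Set (ι → Bool)) (Gᶜ : Set (ι → Bool)) (Polynomial ℝ),
    A = fun x y => vp x.1 y.1 := ⟨_, rfl⟩
  have hBe : ∀ t : ℝ, B.det.eval t = (Matrix.of fun x y : X => W t (f x.1) x.1 y.1).det := by
    intro t
    have h1 := RingHom.map_det (Polynomial.evalRingHom t) B
    rw [Polynomial.coe_evalRingHom] at h1
    rw [h1]
    congr 1
    ext x y
    rw [hB, Matrix.of_apply, ← eval_Wp]
    rfl
  have hAe : ∀ t : ℝ, A.det.eval t =
      (Matrix.of fun x y : (Gᶜ : Set (ι → Bool)) => v t x.1 y.1).det := by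
    intro t
    have h1 := RingHom.map_det (Polynomial.evalRingHom t) A
    rw [Polynomial.coe_evalRingHom] at h1
    rw [h1]
    congr 1
    ext x y
    rw [hA, Matrix.of_apply, ← hev]
    rfl
  have hB0 : B.det ≠ 0 := by
    intro h0
    have h1 := hBe 0
    rw [h0, Polynomial.eval_zero] at h1
    have h2 : (Matrix.of fun x y : X => W 0 (f x.1) x.1 y.1) = 1 := by
      ext x y
      rw [Matrix.of_apply, W_zero, Matrix.one_apply]
      by_cases h : x = y
      · rw [if_pos h, if_pos (congrArg Subtype.val h)]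
      · rw [if_neg h, if_neg (fun h' => h (Subtype.ext h'))]
    rw [h2, Matrix.det_one] at h1
    exact zero_ne_one h1
  have hA0 : A.det ≠ 0 := by
    intro h0
    have h1 := hAe 1
    rw [h0, Polynomial.eval_zero] at h1
    have h2 : (Matrix.of fun x y : (Gᶜ : Set (ι → Bool)) => v 1 x.1 y.1) =
        Matrix.diagonal fun x => v 1 x.1 x.1 := by
      ext x y
      rw [Matrix.of_apply, Matrix.diagonal_apply]
      by_cases h : x = y
      · rw [if_pos h, h]
      · rw [if_neg h]
        have h' : x.1 ≠ y.1 := fun h' => h (Subtype.ext h')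
        rw [hv]
        simp only
        split_ifs with h3
        · exact W_one_ne _ _ h'
        · rw [W_univ, if_neg h']
    rw [h2, Matrix.det_diagonal] at h1
    refine absurd h1.symm (Finset.prod_ne_zero_iff.2 fun x _ => ?_)
    rw [hv]
    simp only
    split_ifs with h3
    · exact W_one_eq _
    · rw [W_univ, if_pos rfl]
      exact one_ne_zero
  obtain ⟨t, ht⟩ : ∃ t : ℝ, (B.det * A.det).eval t ≠ 0 := by
    by_contra hc
    push Not at hc
    refine mul_ne_zero hB0 hA0 (Polynomial.funext fun t => ?_)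
    rw [hc t, Polynomial.eval_zero]
  rw [Polynomial.eval_mul] at ht
  have htB := left_ne_zero_of_mul ht
  have htA := right_ne_zero_of_mul ht
  rw [hBe] at htB
  rw [hAe] at htA
  -- independence
  have hli : LinearIndependent ℝ (Sum.elim (fun x : X => (W t (f x.1) x.1 : (ι → Bool) → ℝ))
      (fun y : (Gᶜ : Set (ι → Bool)) => v t y.1)) := by
    rw [Fintype.linearIndependent_iff]
    intro g hg
    rw [Fintype.sum_sum_type] at hg
    simp only [Sum.elim_inl, Sum.elim_inr] at hg
    obtain ⟨P, hP⟩ : ∃ P : (ι → Bool) → ℝ, P = ∑ x : X, g (Sum.inl x) • W t (f x.1) x.1 := ⟨_, rfl⟩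
    obtain ⟨Q, hQ⟩ : ∃ Q : (ι → Bool) → ℝ,
      Q = ∑ y : (Gᶜ : Set (ι → Bool)), g (Sum.inr y) • v t y.1 := ⟨_, rfl⟩
    rw [← hP, ← hQ] at hg
    have hPu : ∀ u, P u = ∑ x : X, g (Sum.inl x) * W t (f x.1) x.1 u := by
      intro u
      rw [hP, Finset.sum_apply]
      exact Finset.sum_congr rfl fun x _ => by rw [Pi.smul_apply, smul_eq_mul]
    have hQu : ∀ u, Q u = ∑ y : (Gᶜ : Set (ι → Bool)), g (Sum.inr y) * v t y.1 u := by
      intro u
      rw [hQ, Finset.sum_apply]
      exact Finset.sum_congr rfl fun x _ => by rw [Pi.smul_apply, smul_eq_mul]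
    have hPQ : ∑ u, P u * Q u = 0 := by
      have h1 : ∀ u, P u * Q u = ∑ x : X, ∑ y : (Gᶜ : Set (ι → Bool)),
          (g (Sum.inl x) * g (Sum.inr y)) * (W t (f x.1) x.1 u * v t y.1 u) := by
        intro u
        rw [hPu, hQu, Finset.sum_mul_sum]
        refine Finset.sum_congr rfl fun x _ => Finset.sum_congr rfl fun y _ => ?_
        ring
      simp only [h1]
      rw [Finset.sum_comm]
      refine Finset.sum_eq_zero fun x _ => ?_
      rw [Finset.sum_comm]
      refine Finset.sum_eq_zero fun y _ => ?_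
      rw [← Finset.mul_sum, horth t x.1 x.2 y.1 y.2, mul_zero]
    have hQP : ∀ u, Q u = -P u := by
      intro u
      have := congrFun hg u
      simp only [Pi.add_apply, Pi.zero_apply] at this
      linarith
    have hP0 : ∀ u, P u = 0 := by
      have h2 : ∑ u, P u * P u = 0 := by
        have h3 : ∑ u, P u * Q u = -∑ u, P u * P u := by
          rw [← Finset.sum_neg_distrib]
          refine Finset.sum_congr rfl fun u _ => ?_
          rw [hQP]
          ring
        linarith
      intro u
      have h3 := (Finset.sum_eq_zero_iff_of_nonneg fun u _ => mul_self_nonneg (P u)).1 h2 u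
        (Finset.mem_univ u)
      exact mul_self_eq_zero.1 h3
    have hQ0 : ∀ u, Q u = 0 := by
      intro u
      rw [hQP, hP0, neg_zero]
    have hgl : (fun x : X => g (Sum.inl x)) = 0 := by
      refine Matrix.eq_zero_of_vecMul_eq_zero htB ?_
      ext y
      rw [Matrix.vecMul, dotProduct, Pi.zero_apply]
      have := hP0 y.1
      rw [hPu] at this
      exact this
    have hgr : (fun y : (Gᶜ : Set (ι → Bool)) => g (Sum.inr y)) = 0 := by
      refine Matrix.eq_zero_of_vecMul_eq_zero htA ?_
      ext y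
      rw [Matrix.vecMul, dotProduct, Pi.zero_apply]
      have := hQ0 y.1
      rw [hQu] at this
      exact this
    rintro (x | y)
    · exact congrFun hgl x
    · exact congrFun hgr y
  have hcard := hli.fintype_card_le_finrank
  rw [Module.finrank_fintype_fun_eq_card, Fintype.card_sum] at hcard
  have h1 : Fintype.card G + Fintype.card (Gᶜ : Set (ι → Bool)) = Fintype.card (ι → Bool) :=
    by
      rw [Fintype.card_compl_set]
      have := set_fintype_card_le_univ G
      omega
  rw [Nat.card_eq_fintype_card, Nat.card_eq_fintype_card]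
  omega

end Pool.Agent.W45.RB
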